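import Pool.Agent.H14.CL.SoundK

/-!
The Charney-Davis inequality for all flag nonacyclic Gorenstein complexes of even type `d = 2 e`
which belong to the class `B(e + 1)`, or all of whose links of faces `F` with `|F|` odd and
`|F| ≤ d - 5` belong to `B(0)`.

The classes `B(k)` are defined by rules: flag homology 2-spheres, colourings, spectral
certificates, adding, deleting and splitting vertices, gluing, duality, and the passage from the
links of all faces of odd size to the whole complex.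

All other hypotheses are those of the frozen statement of the problem.
-/

set_option autoImplicit false

namespace Pool.Agent.Results.MP_32beb3_co.LocalToGlobal

open Finset Pool.Agent.H14

/-- flag complexes: closed under subsets, and cliques of the graph are faces -/
def Flag {n : ℕ} (L : Finset (Finset (Fin n))) : Prop :=
  (∀ F ∈ L, ∀ G, G ⊆ F → G ∈ L) ∧
    ∀ F : Finset (Fin n), (∀ a ∈ F, ∀ b ∈ F, ({a, b} : Finset (Fin n)) ∈ L) → F ∈ L

/-- the link of a face -/
def link {n : ℕ} (L : Finset (Finset (Fin n))) (F : Finset (Fin n)) :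
    Finset (Finset (Fin n)) :=
  L.filter (fun G => G ∩ F = ∅ ∧ G ∪ F ∈ L)

/-- the real boundary matrix between the faces with `m` and with `m - 1` vertices -/
def bdry {n : ℕ} (L : Finset (Finset (Fin n))) (m : ℕ) :
    Matrix (Finset (Fin n)) (Finset (Fin n)) ℝ :=
  Matrix.of (fun G H =>
    if G ∈ L ∧ H ∈ L ∧ G.card + 1 = m ∧ H.card = m ∧ G ⊆ H then
      (-1 : ℝ) ^ ((G ×ˢ (H \ G)).filter (fun p => p.1 < p.2)).card else 0)

/-- the reduced real Betti number in dimension `m - 1` -/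
noncomputable def betti {n : ℕ} (L : Finset (Finset (Fin n))) (m : ℕ) : ℤ :=
  ((L.filter (fun G => G.card = m)).card : ℤ) - ((bdry L m).rank : ℤ)
    - ((bdry L (m + 1)).rank : ℤ)

/-- flag real homology spheres of dimension `d - 1` -/
def FS {n : ℕ} (d : ℕ) (L : Finset (Finset (Fin n))) : Prop :=
  ∅ ∈ L ∧ Flag L ∧ (∀ F ∈ L, F.card ≤ d) ∧
    ∀ F ∈ L, ∀ m : ℕ, betti (link L F) m = if m = d - F.card then 1 else 0

/-- The classes `B(k)` of finite complexes on the label set `Fin n`. -/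
inductive B {n : ℕ} : ℕ → Finset (Finset (Fin n)) → Prop
  /-- the classes increase -/
  | mono {k k' : ℕ} {L : Finset (Finset (Fin n))} : B k L → k ≤ k' → B k' L
  /-- flag homology spheres of dimensions 0 and 2 -/
  | low {L : Finset (Finset (Fin n))} : (FS 1 L ∨ FS 3 L) → B 0 L
  /-- spheres with a spectral certificate -/
  | spec {d : ℕ} {L : Finset (Finset (Fin n))} (W : Matrix (Fin n) (Fin n) ℝ)
      (hW : W.IsHermitian) : FS d L →
      (∀ u v, ({u, v} : Finset (Fin n)) ∈ L → W u v = 0) →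
      (∀ F ∈ L, F.card < d → ∃ v, v ∉ F ∧ insert v F ∈ L ∧
        ∀ u, u ∉ F → insert u F ∈ L → ({u, v} : Finset (Fin n)) ∉ L → 0 < W u v) →
      (univ.filter (fun i => hW.eigenvalues i < 0)).card ≤ d →
      B (if Odd d then 0 else d / 2 + 1) L
  /-- a proper colouring `c` with signs `σ` of the vertices: for every choice `η` of a sign for
  every colour the full subcomplex on the vertices `v` with `σ v = η (c v)` has no reduced real
  homology in dimensions `≥ k - 1` -/
  | col {k N : ℕ} {L : Finset (Finset (Fin n))} (c : Fin n → Fin N) (σ : Fin n → Bool) :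
      (∀ F ∈ L, ∀ G, G ⊆ F → G ∈ L) →
      (∀ u v, ({u, v} : Finset (Fin n)) ∈ L → u ≠ v → c u ≠ c v) →
      (∀ η : Fin N → Bool, ∀ m, k ≤ m →
        betti (L.filter (fun F => ∀ v ∈ F, σ v = η (c v))) m = 0) → B k L
  /-- adding a vertex -/
  | add {k : ℕ} {L : Finset (Finset (Fin n))} {v : Fin n} : Flag L → {v} ∈ L →
      B (k - 1) (link L {v}) → B k (L.filter (fun F => v ∉ F)) → B k L
  /-- deleting a vertex -/
  | del {k : ℕ} {L : Finset (Finset (Fin n))} {v : Fin n} : Flag L → {v} ∈ L →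
      B k (link L {v}) → B k L → B k (L.filter (fun F => v ∉ F))
  /-- gluing two full subcomplexes -/
  | glue {k : ℕ} {L : Finset (Finset (Fin n))} {A₁ A₂ : Finset (Fin n)} : Flag L →
      (∀ a b, ({a, b} : Finset (Fin n)) ∈ L → (a ∈ A₁ ∧ b ∈ A₁) ∨ (a ∈ A₂ ∧ b ∈ A₂)) →
      B k (L.filter (fun F => F ⊆ A₁)) → B k (L.filter (fun F => F ⊆ A₂)) →
      B (k - 1) (L.filter (fun F => F ⊆ A₁ ∩ A₂)) → B k L
  /-- splitting a vertex: the edge `{u, v}` of `L` is contracted -/
  | split {k : ℕ} {L : Finset (Finset (Fin n))} {u v : Fin n} : Flag L → u ≠ v →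
      ({u, v} : Finset (Fin n)) ∈ L →
      B k (L.image (fun F => if v ∈ F then insert u (F.erase v) else F)) →
      B (k - 1) (link L {u, v}) → B k L
  /-- local to global -/
  | loc {m : ℕ} {L : Finset (Finset (Fin n))} : Flag L → (∀ F ∈ L, F.card ≤ 2 * m) →
      (∀ F ∈ L, Odd F.card → B 0 (link L F)) → B (m + 1) L
  /-- duality -/
  | dual {d k : ℕ} {L : Finset (Finset (Fin n))} : FS d L → 2 * k ≤ d + 1 → B k L → B 0 L
  /-- Euler characteristic zero -/
  | euler {m : ℕ} {L : Finset (Finset (Fin n))} : FS (2 * m) L →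
      ∑ F ∈ L, (-1 : ℤ) ^ F.card * 2 ^ (2 * m - F.card) = 0 → B (m + 1) L → B 0 L

theorem FS.fs {n d : ℕ} {L : Finset (Finset (Fin n))} (h : FS d L) : CL.FS d L :=
  ⟨h.1, h.2.1.1, h.2.1.2, h.2.2.1, h.2.2.2⟩

theorem link_vertex {n : ℕ} {L : Finset (Finset (Fin n))} (hL : CL.Down L) (v : Fin n) :
    link L {v} = CL.lk L v := by
  have h : link L {v} = CL.lkF L {v} := rfl
  rw [h]
  ext G
  rw [CL.mem_lkF' hL, CL.mem_lk' hL, disjoint_singleton_right, union_comm, ← insert_eq]

theorem link_edge {n : ℕ} {L : Finset (Finset (Fin n))} (hL : CL.Down L) {u v : Fin n}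
    (huv : u ≠ v) : link L {u, v} = CL.lk (CL.lk L u) v := by
  have h : link L {u, v} = CL.lkF L {u, v} := rfl
  have h2 : u ∉ ({v} : Finset (Fin n)) := by rw [mem_singleton]; exact huv
  rw [h, ← CL.lkF_lk hL h2]
  exact link_vertex (CL.down_lk hL u) v

theorem B.bk {n k : ℕ} {L : Finset (Finset (Fin n))} (h : B k L) : CL.Bk k L := by
  induction h with
  | mono _ hk ih => exact CL.Bk.mono ih hk
  | low h => exact CL.Bk.low (h.imp FS.fs FS.fs)
  | spec W hW hS h0 hp hn => exact CL.Bk.spec W hW hS.fs h0 hp hn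
  | @col k N L c σ hd hc ha =>
    refine CL.Bk.col c σ hd hc fun η m hm => ?_
    have h1 := ha η m hm
    have h2 : L.filter (fun F => ∀ v ∈ F, σ v = η (c v)) =
        CL.ful L (univ.filter (fun v => σ v = η (c v))) := by
      ext F
      rw [CL.ful, mem_filter, mem_filter]
      refine and_congr_right fun _ => ?_
      constructor
      · intro h v hv
        rw [mem_filter]
        exact ⟨mem_univ v, h v hv⟩
      · intro h v hv
        exact (mem_filter.1 (h hv)).2
    rw [h2] at h1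
    have h3 : ((((CL.ful L (univ.filter (fun v => σ v = η (c v)))).filter
        (fun G => G.card = m)).card : ℤ)
        - ((CL.bdM ℝ (CL.ful L (univ.filter (fun v => σ v = η (c v)))) m).rank : ℤ)
        - ((CL.bdM ℝ (CL.ful L (univ.filter (fun v => σ v = η (c v)))) (m + 1)).rank : ℤ)) = 0 :=
      h1
    unfold CL.Acy
    omega
  | @add k L v hf hv _ _ ih1 ih2 =>
    rw [link_vertex hf.1] at ih1
    exact CL.Bk.add hf.1 hf.2 hv ih1 ih2
  | @del k L v hf hv _ _ ih1 ih2 =>
    rw [link_vertex hf.1] at ih1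
    exact CL.Bk.del hf.1 hf.2 hv ih1 ih2
  | @glue k L A₁ A₂ hf ha _ _ _ ih1 ih2 ih3 => exact CL.Bk.glue hf.1 hf.2 ha ih1 ih2 ih3
  | @split k L u v hf huv he _ _ ih1 ih2 =>
    rw [link_edge hf.1 huv] at ih2
    exact CL.Bk.split hf.1 hf.2 huv he ih1 ih2
  | @loc m L hf hc _ ih => exact CL.Bk.loc hf.1 hf.2 hc ih
  | @dual d k L hS hk _ ih => exact CL.Bk.dual hS.fs hk ih
  | @euler m L hS h0 _ ih => exact CL.Bk.euler hS.fs h0 ih

theorem result :
    ∀ (k : Type) [Field k] (n d e : ℕ) (Δ : Finset (Finset (Fin n)))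
      (bd : Finset (Finset (Fin n)) → ℕ → Matrix (Finset (Fin n)) (Finset (Fin n)) k),
      bd = (fun L m => Matrix.of (fun G H =>
        if G ∈ L ∧ H ∈ L ∧ G.card + 1 = m ∧ H.card = m ∧ G ⊆ H then
          (-1 : k) ^ ((G ×ˢ (H \ G)).filter (fun p => p.1 < p.2)).card else 0)) →
      ∅ ∈ Δ →
      (∀ F ∈ Δ, ∀ G : Finset (Fin n), G ⊆ F → G ∈ Δ) →
      (∀ S : Finset (Fin n), (∀ a ∈ S, ∀ b ∈ S, ({a, b} : Finset (Fin n)) ∈ Δ) → S ∈ Δ) →
      (∀ F ∈ Δ, F.card ≤ d) →
      (∃ F ∈ Δ, F.card = d) →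
      (∀ F ∈ Δ, ∀ m : ℕ,
        ((((Δ.filter (fun G => G ∩ F = ∅ ∧ G ∪ F ∈ Δ)).filter (fun G => G.card = m)).card : ℤ)
          - ((bd (Δ.filter (fun G => G ∩ F = ∅ ∧ G ∪ F ∈ Δ)) m).rank : ℤ)
          - ((bd (Δ.filter (fun G => G ∩ F = ∅ ∧ G ∪ F ∈ Δ)) (m + 1)).rank : ℤ))
          = if m = d - F.card then 1 else 0) →
      d = 2 * e →
      (B (e + 1) Δ ∨ ∀ F ∈ Δ, Odd F.card → F.card + 5 ≤ d → B 0 (link Δ F)) →
      0 ≤ (-1 : ℤ) ^ e * ∑ F ∈ Δ, (-1 : ℤ) ^ F.card * 2 ^ (d - F.card) := by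
  intro k _ n d e Δ bd hbd hempty hdown hflag hdim _ hrank hde hB
  have hR : CL.RankHyp k Δ d := by
    intro F hF m
    have h := hrank F hF m
    rw [hbd] at h
    exact h
  have hR' : CL.RankHyp ℝ Δ d := CL.st_rankField n k Δ d hdown hR
  obtain ⟨ε, hS⟩ := CL.rankSph_all n ℝ Δ d hempty hdown hflag hdim hR'
  subst hde
  have hBk : CL.Bk (e + 1) Δ := by
    rcases hB with hB | hB
    · exact hB.bk
    · exact CL.Bk.of_links ⟨hempty, hdown, hflag, hdim, hR'⟩
        (fun F hF h1 h2 => (hB F hF h1 h2).bk)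
  exact CL.cd_class hS hBk

end Pool.Agent.Results.MP_32beb3_co.LocalToGlobal
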