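import Pool.Agent.H41.CD.Ind2
import Pool.Agent.H41.CD.Bridge

/-!
The Charney-Davis inequality for flag Gorenstein complexes (nonacyclic, over any field) with few
non-adjacent pairs of vertices in the links.

Let `W` be the vertex set of the link of a face `F` with an even number of vertices,
`F.card < d`.  The theorem assumes that for every such `F` one of the following holds.

* Some `v` in `W` is such that no four pairwise adjacent vertices of `W` are all
  not adjacent to `v`.
* `W` has at most `2 * W.card` pairs of vertices that are not adjacent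
  (counted below as ordered pairs, so at most `4 * W.card`).

The first condition holds for every vertex `v` if the graph of non-adjacent pairs of vertices of
`Δ` has no induced star `K_{1,4}`; the second one holds if every vertex of `Δ` has at most four
non-neighbours.

All other hypotheses are those of the frozen statement of the problem.
-/

set_option autoImplicit false

namespace Pool.Agent.Results.MP_32beb3_co.SparseNonEdges

open Finset Pool.Agent.H41.CD

theorem result :
    ∀ (k : Type) [Field k] (n d e : ℕ) (Δ : Finset (Finset (Fin n)))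
      (bd : Finset (Finset (Fin n)) → ℕ → Matrix (Finset (Fin n)) (Finset (Fin n)) k),
      bd = (fun L m => Matrix.of (fun G H =>
        if G ∈ L ∧ H ∈ L ∧ G.card + 1 = m ∧ H.card = m ∧ G ⊆ H then
          (-1 : k) ^ ((G ×ˢ (H \ G)).filter (fun p => p.1 < p.2)).card else 0)) →
      ∅ ∈ Δ →
      (∀ F ∈ Δ, ∀ G : Finset (Fin n), G ⊆ F → G ∈ Δ) →
      (∀ S : Finset (Fin n), (∀ a ∈ S, ∀ b ∈ S, ({a, b} : Finset (Fin n)) ∈ Δ) → S ∈ Δ) →
      (∀ F ∈ Δ, F.card ≤ d) →
      (∃ F ∈ Δ, F.card = d) →
      (∀ F ∈ Δ, ∀ m : ℕ,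
        ((((Δ.filter (fun G => G ∩ F = ∅ ∧ G ∪ F ∈ Δ)).filter (fun G => G.card = m)).card : ℤ)
          - ((bd (Δ.filter (fun G => G ∩ F = ∅ ∧ G ∪ F ∈ Δ)) m).rank : ℤ)
          - ((bd (Δ.filter (fun G => G ∩ F = ∅ ∧ G ∪ F ∈ Δ)) (m + 1)).rank : ℤ))
          = if m = d - F.card then 1 else 0) →
      d = 2 * e →
      (∀ F ∈ Δ, Even F.card → F.card < d → ∀ W : Finset (Fin n),
        W = Finset.univ.filter (fun x => x ∉ F ∧ insert x F ∈ Δ) →
        (∃ v ∈ W, ∀ Q ∈ Δ, Q ⊆ W → Q.card = 4 → ∃ a ∈ Q, ({v, a} : Finset (Fin n)) ∈ Δ) ∨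
        ((W ×ˢ W).filter (fun p => ({p.1, p.2} : Finset (Fin n)) ∉ Δ)).card ≤ 4 * W.card) →
      0 ≤ (-1 : ℤ) ^ e * ∑ F ∈ Δ, (-1 : ℤ) ^ F.card * 2 ^ (d - F.card) := by
  classical
  intro k _ n d e Δ bd hbd hempty hdown hflag hdim hfac hrank hde hsparse
  have hrank' : ∀ F ∈ Δ, ∀ m : ℕ,
      ((((lkF Δ F).filter (fun G => G.card = m)).card : ℤ)
        - ((bdM k (lkF Δ F) m).rank : ℤ) - ((bdM k (lkF Δ F) (m + 1)).rank : ℤ))
        = if m = d - F.card then 1 else 0 := by
    intro F hF m
    have h := hrank F hF m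
    rw [hbd] at h
    exact h
  have hΔ : FlagEulerian Δ d := flagEulerian_of_rank k hdown hflag hdim hfac hrank'
  have hd : Even d := ⟨e, by omega⟩
  have hmain := sF_nonneg2 hΔ hd (by
      intro F hF _ hlt
      obtain ⟨v, hvF, hv⟩ := exists_vertex k hempty hF hlt (hrank' F hF)
      exact ⟨v, mem_vlk.mpr ⟨hvF, hv⟩⟩) (by
      intro F hF hFe hlt
      rcases hsparse F hF hFe hlt (vlk Δ F) rfl with ⟨v, hv, hQ⟩ | hcount
      · left
        rw [mem_vlk] at hv
        refine ⟨v, hv.1, hv.2, ?_⟩
        intro J hJne h4 hFJ hJv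
        exfalso
        have hJpos : 0 < J.card := Finset.card_pos.mpr hJne
        obtain ⟨J', hJ'J, hJ'4⟩ := Finset.exists_subset_card_eq
          (show 4 ≤ J.card from Nat.le_of_dvd hJpos h4)
        have hdisj := far_disjoint hΔ hv.2 hJv
        obtain ⟨a, ha, hva⟩ := hQ J' (hΔ.down _ hFJ _
          (hJ'J.trans Finset.subset_union_right)) (by
            intro a ha
            rw [mem_vlk]
            refine ⟨fun haF => Finset.disjoint_left.mp hdisj haF (hJ'J ha), ?_⟩
            apply hΔ.down _ hFJ
            intro y hy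
            rw [Finset.mem_insert] at hy
            rcases hy with rfl | hy
            · exact Finset.mem_union_right _ (hJ'J ha)
            · exact Finset.mem_union_left _ hy) hJ'4
        exact hJv a (hJ'J ha) hva
      · by_cases h3 : ∃ v ∈ vlk Δ F,
            ((vlk Δ F).filter (fun a => ({v, a} : Finset (Fin n)) ∉ Δ)).card ≤ 3
        · left
          obtain ⟨v, hv, hc⟩ := h3
          rw [mem_vlk] at hv
          refine ⟨v, hv.1, hv.2, ?_⟩
          intro J hJne h4 hFJ hJv
          exfalso
          have hJpos : 0 < J.card := Finset.card_pos.mpr hJne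
          have h4' : 4 ≤ J.card := Nat.le_of_dvd hJpos h4
          have hdisj := far_disjoint hΔ hv.2 hJv
          have hsub : J ⊆ (vlk Δ F).filter (fun a => ({v, a} : Finset (Fin n)) ∉ Δ) := by
            intro a ha
            rw [Finset.mem_filter, mem_vlk]
            refine ⟨⟨fun haF => Finset.disjoint_left.mp hdisj haF ha, ?_⟩, hJv a ha⟩
            apply hΔ.down _ hFJ
            intro y hy
            rw [Finset.mem_insert] at hy
            rcases hy with rfl | hy
            · exact Finset.mem_union_right _ ha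
            · exact Finset.mem_union_left _ hy
          have := Finset.card_le_card hsub
          omega
        · right
          push Not at h3
          have hsum : ((vlk Δ F ×ˢ vlk Δ F).filter
              (fun p => ({p.1, p.2} : Finset (Fin n)) ∉ Δ)).card
              = ∑ v ∈ vlk Δ F,
                ((vlk Δ F).filter (fun a => ({v, a} : Finset (Fin n)) ∉ Δ)).card := by
            rw [Finset.card_filter, Finset.sum_product]
            refine Finset.sum_congr rfl (fun v _ => ?_)
            rw [Finset.card_filter]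
          rw [hsum] at hcount
          intro v hvF hv
          have hvW : v ∈ vlk Δ F := mem_vlk.mpr ⟨hvF, hv⟩
          by_contra hgt
          push Not at hgt
          have hlt' : ∑ w ∈ vlk Δ F, 4 < ∑ w ∈ vlk Δ F,
              ((vlk Δ F).filter (fun a => ({w, a} : Finset (Fin n)) ∉ Δ)).card := by
            apply Finset.sum_lt_sum
            · intro w hw
              exact h3 w hw
            · exact ⟨v, hvW, hgt⟩
          rw [Finset.sum_const, smul_eq_mul] at hlt'
          omega)
  have h0 := hmain e ∅ hempty (by rw [Finset.card_empty]; omega)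
  have hS : ((∑ F ∈ Δ, (-1 : ℤ) ^ F.card * 2 ^ (d - F.card) : ℤ) : ℚ) = 2 ^ d * sF Δ ∅ := by
    unfold sF
    push_cast
    rw [Finset.mul_sum]
    have hf : Δ.filter (fun G => ∅ ⊆ G) = Δ := by
      apply Finset.filter_true_of_mem
      intro G _
      exact Finset.empty_subset G
    rw [hf]
    refine Finset.sum_congr rfl (fun G hG => ?_)
    have hle := hdim G hG
    have e1 : (-1 / 2 : ℚ) ^ G.card = (-1) ^ G.card * (1 / 2) ^ G.card := by
      have : (-1 / 2 : ℚ) = -1 * (1 / 2) := by norm_num
      rw [this, mul_pow]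
    have e2 : (2 : ℚ) ^ d = 2 ^ (d - G.card) * 2 ^ G.card := by
      rw [← pow_add]
      congr 1
      omega
    have e3 : (2 : ℚ) ^ G.card * (1 / 2) ^ G.card = 1 := by
      rw [← mul_pow]; norm_num
    rw [e1, e2]
    calc (-1 : ℚ) ^ G.card * 2 ^ (d - G.card)
        = (-1 : ℚ) ^ G.card * 2 ^ (d - G.card) * ((2 : ℚ) ^ G.card * (1 / 2) ^ G.card) := by
          rw [e3, mul_one]
      _ = _ := by ring
  have hfin : (0 : ℚ) ≤ (((-1 : ℤ) ^ e * ∑ F ∈ Δ, (-1 : ℤ) ^ F.card * 2 ^ (d - F.card) : ℤ) : ℚ) := by
    rw [Int.cast_mul, hS]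
    push_cast
    have h2 : (0 : ℚ) ≤ 2 ^ d := by positivity
    have h3 : (-1 : ℚ) ^ e * (2 ^ d * sF Δ ∅) = 2 ^ d * ((-1 : ℚ) ^ e * sF Δ ∅) := by ring
    rw [h3]
    exact mul_nonneg h2 h0
  exact_mod_cast hfin

end Pool.Agent.Results.MP_32beb3_co.SparseNonEdges
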