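import Pool.Agent.H41.TF.Induct

/-!
The Charney-Davis inequality for flag Gorenstein complexes without three pairwise non-adjacent
vertices: among any three vertices of `Δ` two are joined by an edge (or equal).

In other words, the graph of the non-adjacent pairs of vertices of `Δ` has no triangle.

All other hypotheses are those of the frozen statement of the problem.
-/

set_option autoImplicit false

namespace Pool.Agent.Results.MP_32beb3_co.TriangleFree

open Finset Pool.Agent.H41.CD Pool.Agent.H41.TF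

theorem result :
    ∀ (k : Type) [Field k] (n d e : ℕ) (Δ : Finset (Finset (Fin n)))
      (bd : Finset (Finset (Fin n)) → ℕ → Matrix (Finset (Fin n)) (Finset (Fin n)) k),
      bd = (fun L m => Matrix.of (fun G H =>
        if G ∈ L ∧ H ∈ L ∧ G.card + 1 = m ∧ H.card = m ∧ G ⊆ H then
          (-1 : k) ^ ((G ×ˢ (H \ G)).filter (fun p => p.1 < p.2)).card else 0)) →
      ∅ ∈ Δ →
      (∀ F ∈ Δ, ∀ G : Finset (Fin n), G ⊆ F → G ∈ Δ) →
      (∀ S : Finset (Fin n), (∀ a ∈ S, ∀ b ∈ S, ({a, b} : Finset (Fin n)) ∈ Δ) → S ∈ Δ) →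
      (∀ F ∈ Δ, F.card ≤ d) →
      (∃ F ∈ Δ, F.card = d) →
      (∀ F ∈ Δ, ∀ m : ℕ,
        ((((Δ.filter (fun G => G ∩ F = ∅ ∧ G ∪ F ∈ Δ)).filter (fun G => G.card = m)).card : ℤ)
          - ((bd (Δ.filter (fun G => G ∩ F = ∅ ∧ G ∪ F ∈ Δ)) m).rank : ℤ)
          - ((bd (Δ.filter (fun G => G ∩ F = ∅ ∧ G ∪ F ∈ Δ)) (m + 1)).rank : ℤ))
          = if m = d - F.card then 1 else 0) →
      d = 2 * e →
      (∀ a b c : Fin n, ({a} : Finset (Fin n)) ∈ Δ → ({b} : Finset (Fin n)) ∈ Δ →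
        ({c} : Finset (Fin n)) ∈ Δ → ({a, b} : Finset (Fin n)) ∈ Δ ∨
          ({b, c} : Finset (Fin n)) ∈ Δ ∨ ({a, c} : Finset (Fin n)) ∈ Δ) →
      0 ≤ (-1 : ℤ) ^ e * ∑ F ∈ Δ, (-1 : ℤ) ^ F.card * 2 ^ (d - F.card) := by
  classical
  intro k _ n d e Δ bd hbd hempty hdown hflag hdim hfac hrank hde htri
  have hrank' : ∀ F ∈ Δ, ∀ m : ℕ,
      ((((lkF Δ F).filter (fun G => G.card = m)).card : ℤ)
        - ((bdM k (lkF Δ F) m).rank : ℤ) - ((bdM k (lkF Δ F) (m + 1)).rank : ℤ))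
        = if m = d - F.card then 1 else 0 := by
    intro F hF m
    have h := hrank F hF m
    rw [hbd] at h
    exact h
  have hΔ : FlagEulerian Δ d := flagEulerian_of_rank k hdown hflag hdim hfac hrank'
  have hfe : FE Δ d := ⟨hΔ, hempty, fun F hF hlt => exists_vertex k hempty hF hlt (hrank' F hF)⟩
  have htf : TriFree Δ := by
    intro x y z hxy hyz hxz
    rcases htri x y z hxy.1 hxy.2.1 hyz.2.1 with h | h | h
    · exact hxy.2.2 h
    · exact hyz.2.2 h
    · exact hxz.2.2 h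
  have h0 := cd_nonneg _ Δ d e rfl hfe hde htf
  have hS : ((∑ F ∈ Δ, (-1 : ℤ) ^ F.card * 2 ^ (d - F.card) : ℤ) : ℚ) = 2 ^ d * sF Δ ∅ := by
    unfold sF
    push_cast
    rw [Finset.mul_sum]
    have hf : Δ.filter (fun G => ∅ ⊆ G) = Δ := by
      apply Finset.filter_true_of_mem
      intro G _
      exact Finset.empty_subset G
    rw [hf]
    refine Finset.sum_congr rfl (fun G hG => ?_)
    have hle := hdim G hG
    have e1 : (-1 / 2 : ℚ) ^ G.card = (-1) ^ G.card * (1 / 2) ^ G.card := by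
      have : (-1 / 2 : ℚ) = -1 * (1 / 2) := by norm_num
      rw [this, mul_pow]
    have e2 : (2 : ℚ) ^ d = 2 ^ (d - G.card) * 2 ^ G.card := by
      rw [← pow_add]
      congr 1
      omega
    have e3 : (2 : ℚ) ^ G.card * (1 / 2) ^ G.card = 1 := by
      rw [← mul_pow]; norm_num
    rw [e1, e2]
    calc (-1 : ℚ) ^ G.card * 2 ^ (d - G.card)
        = (-1 : ℚ) ^ G.card * 2 ^ (d - G.card) * ((2 : ℚ) ^ G.card * (1 / 2) ^ G.card) := by
          rw [e3, mul_one]
      _ = _ := by ring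
  have hfin : (0 : ℚ) ≤ (((-1 : ℤ) ^ e * ∑ F ∈ Δ, (-1 : ℤ) ^ F.card * 2 ^ (d - F.card) : ℤ) : ℚ) := by
    rw [Int.cast_mul, hS]
    push_cast
    have h2 : (0 : ℚ) ≤ 2 ^ d := by positivity
    have h3 : (-1 : ℚ) ^ e * (2 ^ d * sF Δ ∅) = 2 ^ d * ((-1 : ℚ) ^ e * sF Δ ∅) := by ring
    rw [h3]
    exact mul_nonneg h2 h0
  exact_mod_cast hfin

end Pool.Agent.Results.MP_32beb3_co.TriangleFree
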